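import Pool.Agent.Lib.Helper64.Skew.Assembly

/-!
# Q1 of MP_fb74c1: typical skew products over interval exchanges are ergodic

For every `d ≥ 2`, every number `n = m + 1 ≥ 2` of intervals and every irreducible permutation,
for almost every length vector and almost every `n`-tuple of elements of `SL(d,ℝ)` the skew
product on `[0,1) × SL(d,ℝ)/SL(d,ℤ)` is ergodic.
-/

set_option autoImplicit false

open MeasureTheory Set

namespace Pool.Agent.Results.MP_fb74c1_an.ErgodicSkew

/-- `SL(d,ℝ)`. -/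
abbrev G (d : ℕ) := Matrix.SpecialLinearGroup (Fin d) ℝ

/-- `SL(d,ℤ)` as a subgroup of `SL(d,ℝ)`. -/
def Gam (d : ℕ) : Subgroup (G d) :=
  (Matrix.SpecialLinearGroup.map (n := Fin d) (Int.castRingHom ℝ)).range

/-- The skew product `(t, hΓ) ↦ (T t, φ(t) hΓ)`, where `T` is the interval exchange given by the
permutation `p` and the lengths `simplexMap m x = (x_1, ..., x_m, 1 - x_1 - ... - x_m)`, and `φ`
is the simple function which is equal to `g j` on the `j`-th interval. -/
noncomputable def skew {d m : ℕ} (p : Equiv.Perm (Fin (m + 1))) (x : Fin m → ℝ)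
    (g : Fin (m + 1) → G d) (q : ℝ × (G d ⧸ Gam d)) : ℝ × (G d ⧸ Gam d) :=
  (SkewIET.iet (Equiv.refl _) p (SkewIET.simplexMap m x) q.1,
    g (SkewIET.label (Equiv.refl _) (SkewIET.simplexMap m x) q.1) • q.2)

/-- Almost every skew product is ergodic. -/
theorem result (d m : ℕ) (hd : 2 ≤ d) (hm : 1 ≤ m) (p : Equiv.Perm (Fin (m + 1)))
    (hp : SkewIET.IrredPerm p)
    [MeasurableSpace (G d)] [BorelSpace (G d)] (μ : Measure (G d)) [μ.IsHaarMeasure]
    [MeasurableSpace (G d ⧸ Gam d)] [BorelSpace (G d ⧸ Gam d)]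
    (ν : Measure (G d ⧸ Gam d)) [IsProbabilityMeasure ν]
    [SMulInvariantMeasure (G d) (G d ⧸ Gam d) ν] :
    ∀ᵐ u ∂((volume.restrict (SkewIET.simplexCoord m)).prod
        (Measure.pi fun _ : Fin (m + 1) => μ)),
      Ergodic (skew p u.1 u.2) ((volume.restrict (Ico (0 : ℝ) 1)).prod ν) := by
  have hclosed : IsClosed (Gam d : Set (G d)) := SkewHM.isClosed_SLZ d
  exact SkewHM.ae_ergodic_skewProduct (d := d) (m := m) (Gam d) ν hd hm p hp μ

end Pool.Agent.Results.MP_fb74c1_an.ErgodicSkew
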